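import Mathlib
import Pool.Agent.Run7.h824.RecurMain

/-!
# Finitely presented groups acting on the line with local periods

Let `G` be a finitely presented group acting on the line. We show that `G` has an unbounded
quasimorphism as soon as every finite part of the action has a local period: for every finite set
`F` of elements there are a fixed-point-free increasing homeomorphism `τ` of the line and a point
`x` such that the elements of `F` commute with `τ` near `x` (more precisely on the interval spanned
by `F x`), and `G` has no global fixed point between `x` and `τ x`. In particular such a group is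
never a positive answer to the problem: if it is simple, then `H_b^2(G; ℝ) ≠ 0`.

A special case, which is stated separately, are the actions with finite local complexity: all known
constructions of finitely generated simple left-orderable groups (the quasi-periodic
groups and the finitely presented groups of Hyde and Lodha, the groups of homeomorphisms of flows of
Matte Bon and Triestino) act on the line in such a way that each generator looks in only finitely
many ways on the successive fundamental intervals of some fixed-point-free homeomorphism `τ`.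
-/

set_option autoImplicit false

namespace Pool.Agent.Results.MP_a5fa9a_al.LocalPeriods

/-- `G` is finitely presented (same wording as in the formal statement of the problem). -/
def IsFinPres (G : Type) [Group G] : Prop :=
  ∃ (m : ℕ) (rels : Finset (FreeGroup (Fin m))),
    Nonempty (G ≃* PresentedGroup (rels : Set (FreeGroup (Fin m))))

/-- `H_b^{n+1}(G; ℝ) = 0` (same wording as in the formal statement of the problem). -/
def HbVanishes (G : Type) [Group G] (n : ℕ) : Prop :=
  ∀ f : (Fin (n + 2) → G) → ℝ,
    (∃ C : ℝ, ∀ x, |f x| ≤ C) →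
    (∀ (g : G) (x : Fin (n + 2) → G), f (fun j => g * x j) = f x) →
    (∀ x : Fin (n + 3) → G,
      ∑ i : Fin (n + 3), (-1 : ℝ) ^ (i : ℕ) * f (x ∘ Fin.succAbove i) = 0) →
    ∃ h : (Fin (n + 1) → G) → ℝ,
      (∃ C : ℝ, ∀ x, |h x| ≤ C) ∧
      (∀ (g : G) (x : Fin (n + 1) → G), h (fun j => g * x j) = h x) ∧
      ∀ x : Fin (n + 2) → G,
        f x = ∑ i : Fin (n + 2), (-1 : ℝ) ^ (i : ℕ) * h (x ∘ Fin.succAbove i)

/-- The action `ρ` of `G` on the line has local periods: for every finite set `F` of elements there
are an increasing homeomorphism `τ` without fixed points and a point `x` such that every element of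
`F` commutes with `τ` at all points `y` of the intervals `[ρ g x, ρ h x]`, `g, h ∈ F`, and no point
of `[x, τ x]` is fixed by all of `G`. The homeomorphism `τ` need not belong to the group. -/
def HasLocalPeriods {G : Type} [Group G] (ρ : G →* (ℝ ≃o ℝ)) : Prop :=
  ∀ F : Finset G, ∃ (τ : ℝ ≃o ℝ) (x : ℝ), (∀ y, y < τ y) ∧
    (∀ f ∈ F, ∀ g ∈ F, ∀ h ∈ F, ∀ y ∈ Set.Icc (ρ g x) (ρ h x), ρ f (τ y) = τ (ρ f y)) ∧
    ∀ y ∈ Set.Icc x (τ x), ∃ g, ρ g y ≠ y

/-- The increasing homeomorphism `a` of the line looks in only finitely many ways on the intervals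
`[τ ^ n x₀, τ ^ (n + 1) x₀]`, `n = 0, 1, 2, …`: the maps `τ ^ (-n) ∘ a ∘ τ ^ n`, restricted to the
fundamental interval `[x₀, τ x₀]`, form a finite set. -/
def FiniteLocalComplexity (τ : ℝ ≃o ℝ) (x₀ : ℝ) (a : ℝ ≃o ℝ) : Prop :=
  (Set.range fun (n : ℕ) (x : Set.Icc x₀ (τ x₀)) => ((τ ^ n)⁻¹ : ℝ ≃o ℝ) (a ((τ ^ n) x))).Finite

/-- The action `ρ` of `G` on the line has finite local complexity near `+∞`: the elements of some
generating set do, with respect to one increasing homeomorphism `τ` without fixed points; and there
are arbitrarily long runs of consecutive fundamental intervals of `τ` without global fixed points of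
`G` (for instance: `G` has no global fixed point). -/
def IsFiniteComplexityAction {G : Type} [Group G] (ρ : G →* (ℝ ≃o ℝ)) : Prop :=
  ∃ (τ : ℝ ≃o ℝ) (x₀ : ℝ) (S : Set G), (∀ x, x < τ x) ∧ Subgroup.closure S = ⊤ ∧
    (∀ s ∈ S, FiniteLocalComplexity τ x₀ (ρ s)) ∧
    ∀ L : ℕ, ∃ n : ℕ, ∀ x ∈ Set.Icc ((τ ^ n) x₀) ((τ ^ (n + L)) x₀), ∃ g, ρ g x ≠ x

/-- Let `G` be a finitely presented group which acts on the line by increasing homeomorphisms with
local periods, or with finite local complexity near `+∞`. Then `G` has an unbounded quasimorphism.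
If moreover `G` is simple, or at least has no nonzero homomorphism to `ℝ`, then
`H_b^2(G; ℝ) ≠ 0`. -/
theorem result (G : Type) [Group G] (hfp : IsFinPres G) (ρ : G →* (ℝ ≃o ℝ))
    (hρ : HasLocalPeriods ρ ∨ IsFiniteComplexityAction ρ) :
    (∃ φ : G → ℝ, (∃ D : ℝ, ∀ g h, |φ (g * h) - φ g - φ h| ≤ D) ∧
      ¬ ∃ C : ℝ, ∀ g, |φ g| ≤ C) ∧
    ((IsSimpleGroup G ∨ ∀ ψ : G →* Multiplicative ℝ, ψ = 1) → ¬ HbVanishes G 1) := by
  obtain ⟨m, rels, ⟨e⟩⟩ := hfp
  have key : ¬ Run7.h824.QuasiBdd G := by
    rcases hρ with h | ⟨τ, x₀, S, hτ, hS, hflc, hfix⟩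
    · exact Run7.h824.recur_main m rels e ρ h
    · exact Run7.h824.flc_main m rels e ρ τ hτ x₀ S hS hflc hfix
  refine ⟨?_, fun hG => ?_⟩
  · unfold Run7.h824.QuasiBdd at key
    push Not at key
    obtain ⟨φ, hφ, hC⟩ := key
    refine ⟨φ, hφ, ?_⟩
    rintro ⟨C, hC'⟩
    obtain ⟨g, hg⟩ := hC C
    exact absurd (hC' g) (not_le.2 hg)
  · refine Run7.h824.not_hbVanishes ?_ key
    rcases hG with h | h
    · exact Run7.h824.simple_hom h
    · exact h

end Pool.Agent.Results.MP_a5fa9a_al.LocalPeriods
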